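import Pool.Agent.MWV.Stmts

/-!
# Squad MWV (problem MP_23468a_al), row GDI: insertion under `Gd`
-/

namespace Pool.Agent.MWV.H94

open Pool.Agent.Helper14_MV Pool.Agent.Helper2_MV Pool.Agent.MWV

theorem rp_mono {N : ℕ} {S : List ℕ → List ℕ → Prop} {p q ν p' q' ν' : List ℕ}
    (h : Rp N S p q ν) (hp : p ⊆ p') (hq : q ⊆ q') (hν : ∀ c ∈ ν', c % 3 ≠ 0 → c ∈ ν) :
    Rp N S p' q' ν' := by
  intro c hc h3
  rcases h c (hν c hc h3) h3 with h1 | h1
  · exact Or.inl ⟨hq h1.1, h1.2⟩
  · exact Or.inr ⟨hp h1.1, h1.2⟩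

theorem lq_mono {N : ℕ} {S : List ℕ → List ℕ → Prop} {p q ν p' q' ν' : List ℕ}
    (h : Lq N S p q ν) (hp : p ⊆ p') (hq : q ⊆ q') (hν : ∀ c ∈ ν', c % 3 ≠ 0 → c ∈ ν) :
    Lq N S p' q' ν' := by
  intro c hc h3
  rcases h c (hν c hc h3) h3 with h1 | h1
  · exact Or.inl ⟨hq h1.1, h1.2⟩
  · exact Or.inr ⟨hp h1.1, h1.2⟩

theorem gdi (hINR : InrStmt) : GdiStmt := by
  intro N S hW k hF p q a b h hh hG
  have R1 : ∀ p' a' q' : List ℕ, Rp N S p' q' a' →
      S (p' ++ h :: (a' ++ q')) (p' ++ h :: (a' ++ (X N h ++ q'))) :=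
    fun p' a' q' hr => (hINR N S hW p' a' q' h hh).1 hr
  have R2 : ∀ p' a' q' : List ℕ, Lq N S p' q' a' →
      S (p' ++ (a' ++ h :: q')) (p' ++ (X N h ++ (a' ++ h :: q'))) :=
    fun p' a' q' hr => (hINR N S hW p' a' q' h hh).2 hr
  -- insertion to the left of a letter `h` in `b`
  have LA : ∀ c r : List ℕ, b ++ h :: q = c ++ h :: r → Lq N S (p ++ h :: a) r c →
      S (p ++ h :: (a ++ (b ++ h :: q))) (p ++ h :: (a ++ (X N h ++ (b ++ h :: q)))) := by
    intro c r e hr
    have := R2 (p ++ h :: a) c r hr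
    rw [e]
    simpa only [List.append_assoc, List.cons_append] using this
  -- insertion to the right of a letter `h` in `a`
  have RA : ∀ r c : List ℕ, p ++ h :: a = r ++ h :: c → Rp N S r (b ++ h :: q) c →
      S (p ++ h :: (a ++ (b ++ h :: q))) (p ++ h :: (a ++ (X N h ++ (b ++ h :: q)))) := by
    intro r c e hr
    have := R1 r c (b ++ h :: q) hr
    have e1 : p ++ h :: (a ++ (b ++ h :: q)) = (p ++ h :: a) ++ (b ++ h :: q) := by simp
    have e2 : p ++ h :: (a ++ (X N h ++ (b ++ h :: q))) =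
        (p ++ h :: a) ++ (X N h ++ (b ++ h :: q)) := by simp
    rw [e1, e2, e]
    simpa only [List.append_assoc, List.cons_append] using this
  rcases hG with hG | hG | hG | ⟨ν1, ρ, ν2, z, z', e, hz, hz', hρ, hc, hL, hR⟩
  · exact hF p q a b h hh hG.1 hG.2.1 hG.2.2
  · refine RA p a rfl (rp_mono hG (List.Subset.refl _) ?_ ?_)
    · intro c hc
      simp [hc]
    · intro c hc _
      simp [hc]
  · refine LA b q rfl (lq_mono hG ?_ (List.Subset.refl _) ?_)
    · intro c hc
      simp [hc]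
    · intro c hc _
      simp [hc]
  · have hm : h ∈ ρ := by
      by_contra hno
      rw [List.count_eq_zero.2 hno, Nat.zero_mod] at hc
      exact hc rfl
    obtain ⟨ρ1, ρ2, hρe⟩ := List.append_of_mem hm
    have e3 : a ++ b = (ν1 ++ z :: ρ1) ++ (h :: (ρ2 ++ z' :: ν2)) := by
      rw [e, hρe]
      simp
    have LB : ∀ c : List ℕ, ν1 ++ z :: ρ1 = a ++ c → b = c ++ h :: (ρ2 ++ z' :: ν2) →
        S (p ++ h :: (a ++ (b ++ h :: q))) (p ++ h :: (a ++ (X N h ++ (b ++ h :: q)))) := by
      intro c h1 h2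
      refine LA c ((ρ2 ++ z' :: ν2) ++ h :: q) (by rw [h2]; simp) (lq_mono hL ?_ ?_ ?_)
      · intro d hd
        simp [hd]
      · intro d hd
        simp [hd]
      · intro d hd h3
        have h4 : d ∈ ν1 ++ z :: ρ1 := by
          rw [h1]
          simp [hd]
        rw [List.mem_append, List.mem_cons] at h4
        rw [List.mem_append, List.mem_singleton]
        rcases h4 with h4 | h4 | h4
        · exact Or.inl h4
        · exact Or.inr h4
        · exact absurd (hρ d (by rw [hρe]; simp [h4])) h3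
    rcases List.append_eq_append_iff.1 e3 with ⟨c, h1, h2⟩ | ⟨c, h1, h2⟩
    · exact LB c h1 h2
    · cases c with
      | nil => exact LB [] (by rw [h1]; simp) (by simpa using h2.symm)
      | cons d c' =>
        rw [List.cons_append, List.cons.injEq] at h2
        obtain ⟨rfl, h3⟩ := h2
        refine RA (p ++ h :: (ν1 ++ z :: ρ1)) c' (by rw [h1]; simp) (rp_mono hR ?_ ?_ ?_)
        · intro x hx
          simp [hx]
        · intro x hx
          simp [hx]
        · intro x hx h4
          have h5 : x ∈ ρ2 ++ z' :: ν2 := by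
            rw [h3]
            simp [hx]
          rw [List.mem_append] at h5
          rcases h5 with h5 | h5
          · exact absurd (hρ x (by rw [hρe]; simp [h5])) h4
          · exact h5

end Pool.Agent.MWV.H94
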