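import Pool.Agent.MWV.Stmts

/-!
# Squad MWV (problem MP_23468a_al), row SIG: the moved letter `y` and the watched letter `x`
-/

namespace Pool.Agent.MWV.H94

open Pool.Agent.Helper14_MV Pool.Agent.Helper2_MV Pool.Agent.MWV

theorem lgt_append (u v : List ℕ) : lgt (u ++ v) = lgt u ++ lgt v := List.filter_append ..

theorem lgt_heavy {u : List ℕ} (h : ∀ a ∈ u, a % 3 = 0) : lgt u = [] := by
  rw [lgt, List.filter_eq_nil_iff]
  intro a ha
  simp [h a ha]

theorem lgt_light (e : ℕ) : lgt [3 * e + 1] = [3 * e + 1] := by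
  have h : (3 * e + 1) % 3 ≠ 0 := by omega
  simp [lgt, h]

theorem mk_heavy {g : ℕ → Bool} {j a : ℕ} (h : a ∈ mk g j) : a % 3 = 0 := by
  unfold mk at h
  split_ifs at h with hg
  · rw [List.mem_singleton] at h
    omega
  · simp at h

theorem lgt_cr (g : ℕ → Bool) {s : List ℕ} (hs : ∀ a ∈ s, a % 3 = 0) (d : ℕ) : ∀ k : ℕ,
    lgt (cr g s d k) = (List.range (k + 1)).map (fun i => 3 * (d + i) + 1)
  | 0 => by
    show lgt [3 * d + 1] = _
    rw [lgt_light]
    simp
  | k + 1 => by
    show lgt (cr g s d k ++ (mk g (k + 1) ++ (s ++ [3 * (d + (k + 1)) + 1]))) = _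
    rw [lgt_append, lgt_append, lgt_append, lgt_cr g hs d k, lgt_heavy (fun a ha => mk_heavy ha),
      lgt_heavy hs, lgt_light, List.range_succ (n := k + 1), List.map_append]
    rfl

theorem X_heavy {N a : ℕ} (h : a ∈ X N 0) : a % 3 = 0 := by
  rw [List.eq_of_mem_replicate h]

theorem map_split {F : ℕ → ℕ} {n : ℕ} {A B : List ℕ} {z : ℕ}
    (h : (List.range n).map F = A ++ z :: B) :
    A.length < n ∧ A = (List.range A.length).map F ∧ z = F A.length := by
  have h1 := congrArg List.length h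
  rw [List.length_map, List.length_range, List.length_append, List.length_cons] at h1
  have hl : A.length < n := by omega
  refine ⟨hl, ?_, ?_⟩
  · have h2 := congrArg (List.take A.length) h
    rw [List.take_left, ← List.map_take, List.take_range, Nat.min_eq_left hl.le] at h2
    exact h2.symm
  · have h3 := congrArg (fun l : List ℕ => l[A.length]?) h
    simp only [List.getElem?_map, List.getElem?_append_right (Nat.le_refl A.length),
      Nat.sub_self, List.getElem?_cons_zero, List.getElem?_range hl, Option.map_some,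
      Option.some.injEq] at h3
    exact h3.symm

theorem W_inj {P Q L L' : List ℕ} (h : W P Q L = W P Q L') : L = L' := by
  unfold W at h
  have h1 := List.append_cancel_left h
  rw [List.cons.injEq] at h1
  exact List.append_cancel_right h1.2

theorem im_append (N : ℕ) (f : ℕ → List ℕ) (u v : List ℕ) :
    im N f (u ++ v) = im N f u ++ im N f v := List.flatMap_append ..

theorem im_light (N : ℕ) (f : ℕ → List ℕ) (e : ℕ) : im N f [3 * e + 1] = f (3 * e + 1) := by
  have h : (3 * e + 1) % 3 ≠ 0 := by omega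
  simp [im, h]

theorem mem_im_X {N : ℕ} {f : ℕ → List ℕ} {h a : ℕ} (hh : h % 3 = 0) (ha : a ∈ im N f (X N h)) :
    a ∈ f h := by
  unfold im at ha
  rw [List.mem_flatMap] at ha
  obtain ⟨b, hb, ha⟩ := ha
  rw [List.eq_of_mem_replicate hb, if_pos hh, List.mem_flatten] at ha
  obtain ⟨l, hl, ha⟩ := ha
  rwa [List.eq_of_mem_replicate hl] at ha

theorem sig (hPPM : PpmStmt) (hLBK : LbkStmt) (hDCB : DcbStmt) (hORD : OrdStmt) (hMKP : MkpStmt)
    (hCV2 : Cv2Stmt) : SigStmt := by
  intro N S P Q g k f s α1 γ1 hyp hs hFr hS hf0 hcov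
  have hk := hyp.kp
  have hN := hyp.wo.pos
  obtain ⟨pm, pI, p0, pk⟩ := hPPM k P Q hk hyp.pm
  set Q' := PP k Q with hQ'
  set P' := PP k P with hP'
  have memPQ : ∀ e, e ≤ k + 2 → e ∈ P' ++ Q' := by
    intro e he
    rw [pm.mem_iff, List.mem_range]
    omega
  have hlg : lgt (cr g s 1 k ++ (X N 0 ++ [3 * (k + 2) + 1])) =
      (List.range (k + 2)).map (fun i => 3 * (1 + i) + 1) := by
    rw [lgt_append, lgt_append, lgt_cr g hs 1 k, lgt_heavy (fun a ha => X_heavy ha), lgt_light,
      List.range_succ (n := k + 1), List.map_append, List.nil_append]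
    have : 3 * (k + 2) + 1 = 3 * (1 + (k + 1)) + 1 := by ring
    rw [this]
    rfl
  obtain ⟨ζ, hζ, hζl, hζs, hζi⟩ := hCV2 N f k P' Q' 3 _ α1 γ1 0 1 hN pm (by omega) (by omega) hFr
    hlg (fun i _ hi => hcov i (by omega))
  have z1 : ∀ i < k + 2, f (3 * (1 + i) + 1) = [3 * ζ i + 1] := fun i hi => (hζ i hi).1
  have z2 : ∀ i < k + 2, (ζ i ∈ Q' ↔ 1 + i ∈ Q') := fun i hi => (hζ i hi).2.1
  have z3 : ∀ i < k + 2, ζ i ≤ k + 1 := fun i hi => by have := (hζ i hi).2.2.2; omega
  set μ := cr g s 1 k ++ (X N 0 ++ [3 * (k + 2) + 1]) with hμ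
  set w0 := im N f (X N 3) with hw0
  have hOk : Ok P' Q' (α1 ++ (w0 ++ (im N f μ ++ (w0 ++ γ1)))) := hFr.ok
  -- the order of the lights
  have O : ∀ t, t < k + 2 → ∀ i, i < ζ t → ((i ∈ Q' ↔ ζ t ∈ Q') →
      ((i ∈ Q' ↔ 0 ∈ Q') ∨ (i ∈ Q' ↔ k + 2 ∈ Q'))) → ∃ t' < t, ζ t' = i := by
    intro t ht i hi hc
    have hz : 3 * ζ t + 1 ∈ im N f μ := by
      have h1 : 3 * ζ t + 1 ∈ lgt (im N f μ) := by
        rw [hζl, List.mem_map]
        exact ⟨t, List.mem_range.2 ht, rfl⟩
      exact List.mem_of_mem_filter h1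
    obtain ⟨u, v, huv⟩ := List.append_of_mem hz
    have hzl : lgt (im N f μ) = lgt u ++ (3 * ζ t + 1) :: lgt v := by
      have e : u ++ (3 * ζ t + 1) :: v = u ++ ([3 * ζ t + 1] ++ v) := rfl
      rw [huv, e, lgt_append, lgt_append, lgt_light]
      rfl
    rw [hζl] at hzl
    obtain ⟨h1, h2, h3⟩ := map_split hzl
    have h4 : ζ t = ζ (lgt u).length := by omega
    have h5 : t = (lgt u).length := hζi t ht _ h1 h4
    have h6 : 3 * i + 1 ∈ α1 ++ (w0 ++ u) := by
      refine hORD N S P Q g k 0 i (ζ t) (α1 ++ (w0 ++ u)) (v ++ (w0 ++ γ1)) hyp (by omega) hi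
        (by have := z3 t ht; omega) hc ?_
      have e : α1 ++ (w0 ++ u) ++ (3 * ζ t + 1) :: (v ++ (w0 ++ γ1)) =
          α1 ++ (w0 ++ (im N f μ ++ (w0 ++ γ1))) := by
        rw [huv]
        simp
      rw [e]
      exact hS
    have hik : i ≤ k + 1 := by have := z3 t ht; omega
    have h7 := hOk.one i (memPQ i (by omega))
    have h8 : 0 < (im N f μ).count (3 * i + 1) := List.count_pos_iff.2 (hcov i hik)
    simp only [List.count_append] at h7
    have h9 : 3 * i + 1 ∈ u := by
      rw [List.mem_append, List.mem_append] at h6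
      rcases h6 with h6 | h6 | h6
      · have := List.count_pos_iff.2 h6
        omega
      · have := List.count_pos_iff.2 h6
        omega
      · exact h6
    have h10 : 3 * i + 1 ∈ lgt u := by
      rw [lgt, List.mem_filter]
      refine ⟨h9, ?_⟩
      simp
    rw [h2, List.mem_map] at h10
    obtain ⟨t', h11, h12⟩ := h10
    rw [List.mem_range] at h11
    exact ⟨t', by omega, by omega⟩
  -- the kinds of the two ends
  have e02 : 0 ∈ Q' ↔ k + 2 ∈ Q' := by
    classical
    obtain ⟨χ, hχ⟩ : ∃ χ : ℕ → ℕ, ∀ j, χ j = if j ∈ Q' then 1 else 0 := ⟨_, fun _ => rfl⟩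
    have s1 : ∑ i ∈ Finset.range (k + 2), χ (i + 1) = ∑ j ∈ Finset.range (k + 2), χ j := by
      refine Finset.sum_nbij ζ ?_ ?_ ?_ ?_
      · intro i hi
        rw [Finset.mem_range] at hi ⊢
        have := z3 i hi
        omega
      · intro i hi j hj hij
        rw [Finset.coe_range, Set.mem_Iio] at hi hj
        exact hζi i hi j hj hij
      · intro j hj
        rw [Finset.coe_range, Set.mem_Iio] at hj
        obtain ⟨i, hi, hij⟩ := hζs j (by omega) (by omega)
        exact ⟨i, by rw [Finset.coe_range, Set.mem_Iio]; exact hi, hij⟩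
      · intro i hi
        rw [Finset.mem_range] at hi
        have := z2 i hi
        rw [Nat.add_comm 1 i] at this
        rw [hχ, hχ]
        simp only [this]
    have s2 := Finset.sum_range_succ χ (k + 2)
    have s3 := Finset.sum_range_succ' χ (k + 2)
    have s4 : χ 0 = χ (k + 2) := by
      rw [s1] at s3
      rw [s3] at s2
      exact Nat.add_left_cancel s2
    rw [hχ, hχ] at s4
    by_cases a1 : 0 ∈ Q'
    · rw [if_pos a1] at s4
      by_cases a2 : k + 2 ∈ Q'
      · exact ⟨fun _ => a2, fun _ => a1⟩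
      · rw [if_neg a2] at s4
        omega
    · rw [if_neg a1] at s4
      by_cases a2 : k + 2 ∈ Q'
      · rw [if_pos a2] at s4
        omega
      · exact ⟨fun h => absurd h a1, fun h => absurd h a2⟩
  have eQ : 0 ∈ Q ↔ k ∈ Q := by rw [← p0, ← pk]; exact e02
  -- all kinds are equal
  have hall : ∀ j, j ≤ k + 2 → (j ∈ Q' ↔ 0 ∈ Q') := by
    classical
    by_contra hno
    have hex : ∃ j, j ≤ k + 2 ∧ ¬ (j ∈ Q' ↔ 0 ∈ Q') := by
      by_contra h
      apply hno
      intro j hj
      by_contra hj2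
      exact h ⟨j, hj, hj2⟩
    obtain ⟨hj1, hj2⟩ := Nat.find_spec hex
    have hmin : ∀ i, i < Nat.find hex → (i ∈ Q' ↔ 0 ∈ Q') := by
      intro i hi
      have := Nat.find_min hex hi
      by_contra h
      exact this ⟨by omega, h⟩
    set j := Nat.find hex with hj
    have hj0 : j ≠ 0 := by
      intro h
      rw [h] at hj2
      exact hj2 Iff.rfl
    have hjk2 : j ≠ k + 2 := by
      intro h
      rw [h] at hj2
      exact hj2 e02.symm
    have ht : j - 1 < k + 2 := by omega
    have hz := z2 (j - 1) ht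
    have e1 : 1 + (j - 1) = j := by omega
    rw [e1] at hz
    have hge : j ≤ ζ (j - 1) := by
      by_contra h
      rw [not_le] at h
      apply hj2
      rw [← hz]
      exact hmin _ h
    have hsub : Finset.range j ⊆ (Finset.range (j - 1)).image ζ := by
      intro i hi
      rw [Finset.mem_range] at hi
      obtain ⟨t', h1, h2⟩ := O (j - 1) ht i (by omega) (fun _ => Or.inl (hmin i hi))
      rw [Finset.mem_image]
      exact ⟨t', Finset.mem_range.2 h1, h2⟩
    have h1 := Finset.card_le_card hsub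
    have h2 := Finset.card_image_le (s := Finset.range (j - 1)) (f := ζ)
    rw [Finset.card_range] at h1 h2
    omega
  -- `ζ` is the identity
  have hid : ∀ t, t < k + 2 → ζ t = t := by
    intro t
    induction t using Nat.strong_induction_on with
    | _ t ih =>
      intro ht
      rcases Nat.lt_trichotomy (ζ t) t with h | h | h
      · have h1 := ih (ζ t) h (by omega)
        have h2 := hζi (ζ t) (by omega) t ht h1
        omega
      · exact h
      · obtain ⟨t', h1, h2⟩ := O t ht t h (fun _ => Or.inl (hall t (by omega)))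
        have h3 := ih t' h1 (by omega)
        omega
  -- every gap has a marker
  have hnl : ¬ ll N S Q' k := by
    intro h
    apply hyp.fc.nl
    have h1 : k ∈ Q' ↔ k ∈ Q := by rw [hall k (by omega), p0, eQ]
    exact ⟨fun h2 => h.1 (h1.2 h2), fun h2 => h.2 (fun h3 => h2 (h1.1 h3))⟩
  have hnr : ¬ rr N S Q' (k + 1) := by
    intro h
    apply hyp.fc.nr
    have h1 : k + 1 ∈ Q' ↔ 0 ∈ Q := by rw [hall (k + 1) (by omega), p0]
    exact ⟨fun h2 => h.1 (h1.2 h2), fun h2 => h.2 (fun h3 => h2 (h1.1 h3))⟩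
  have hgk : g k = true := by
    rw [hyp.hg k hk le_rfl]
    intro hF
    apply hyp.fc.nl
    have h := hF.1 0 (by omega)
    exact ⟨fun h2 => h.1 (eQ.2 h2), fun h2 => h.2 (fun h3 => h2 (eQ.1 h3))⟩
  -- the marker `3 k + 3` is in the main block
  have hmem : 3 * k + 3 ∈ α1 ++ (w0 ++ (im N f μ ++ (w0 ++ γ1))) := by
    obtain ⟨L1, h1, -, h3⟩ := hDCB N S P Q g k 0 _ hyp (by omega) hS
    have h4 := W_inj h1
    rw [h4, h3]
    have h5 := (hLBK N g k 0 P Q hN hk (by omega) hyp.pm).2.1 (3 * k + 3) (by omega)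
    exact h5.2 (Or.inr ⟨k, hk, le_rfl, hgk, rfl⟩)
  -- the last two lights of the inner part
  obtain ⟨U, hU⟩ : ∃ U, im N f μ = U ++ (3 * k + 1) :: (im N f (X N 0) ++ [3 * (k + 1) + 1]) := by
    obtain ⟨k', rfl⟩ : ∃ k', k = k' + 1 := ⟨k - 1, by omega⟩
    refine ⟨im N f (cr g s 1 k' ++ (mk g (k' + 1) ++ s)), ?_⟩
    have e1 : μ = (cr g s 1 k' ++ (mk g (k' + 1) ++ s)) ++ ([3 * (1 + (k' + 1)) + 1] ++
        (X N 0 ++ [3 * (1 + (k' + 1 + 1)) + 1])) := by
      have e2 : cr g s 1 (k' + 1) =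
        cr g s 1 k' ++ (mk g (k' + 1) ++ (s ++ [3 * (1 + (k' + 1)) + 1])) := rfl
      rw [hμ, e2]
      simp only [List.append_assoc]
      have e3 : 3 * (k' + 1 + 2) + 1 = 3 * (1 + (k' + 1 + 1)) + 1 := by ring
      rw [e3]
    rw [e1, im_append, im_append (u := [_]), im_append (u := X N 0), im_light, im_light,
      z1 (k' + 1) (by omega), z1 (k' + 1 + 1) (by omega), hid (k' + 1) (by omega),
      hid (k' + 1 + 1) (by omega)]
    rfl
  have hm1 : 3 * k + 3 ∉ α1 ++ (w0 ++ U) := by
    intro h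
    apply hnl
    refine (hMKP N S P Q g k 0 k k (α1 ++ (w0 ++ U))
      (im N f (X N 0) ++ (3 * (k + 1) + 1) :: (w0 ++ γ1)) hyp (by omega) (by omega) hk le_rfl hgk
      ?_).1 le_rfl h
    have e : α1 ++ (w0 ++ U) ++ (3 * k + 1) :: (im N f (X N 0) ++ (3 * (k + 1) + 1) ::
        (w0 ++ γ1)) = α1 ++ (w0 ++ (im N f μ ++ (w0 ++ γ1))) := by
      rw [hU]
      simp
    rw [e]
    exact hS
  have hm2 : 3 * k + 3 ∉ w0 ++ γ1 := by
    intro h
    apply hnr
    refine (hMKP N S P Q g k 0 (k + 1) k (α1 ++ (w0 ++ (U ++ (3 * k + 1) :: im N f (X N 0))))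
      (w0 ++ γ1) hyp (by omega) (by omega) hk le_rfl hgk ?_).2 (by omega) h
    have e : α1 ++ (w0 ++ (U ++ (3 * k + 1) :: im N f (X N 0))) ++ (3 * (k + 1) + 1) ::
        (w0 ++ γ1) = α1 ++ (w0 ++ (im N f μ ++ (w0 ++ γ1))) := by
      rw [hU]
      simp
    rw [e]
    exact hS
  rw [hU] at hmem
  have hX : 3 * k + 3 ∈ im N f (X N 0) := by
    simp only [List.mem_append, List.mem_cons, List.not_mem_nil, or_false] at hmem hm1 hm2
    rcases hmem with h | h | h | h
    · exact absurd (Or.inl h) hm1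
    · exact absurd (Or.inr (Or.inl h)) hm1
    · rcases h with h | h | h | h
      · exact absurd (Or.inr (Or.inr h)) hm1
      · omega
      · exact h
      · omega
    · exact absurd h hm2
  have h0 := hf0 _ (mem_im_X (by omega) hX) (by omega)
  exact hm1 (List.mem_append_left _ h0)

end Pool.Agent.MWV.H94
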